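import Pool.Agent.Helper22.LIL.Defs

/-!
# LIL-ME: measurability and a trivial bound for the error term, continuity of the Hardy sum

Lean: helper46.
-/

open MeasureTheory Filter Set
open scoped Real Topology

namespace Pool.Agent.Helper22.LIL

open Pool.Agent.Helper22.GC Pool.Agent.Helper53.OM

noncomputable section

private lemma ME_F_mono {R R' : ℝ} (h : R ^ 2 ≤ R' ^ 2) : F R ≤ F R' := by
  refine Set.ncard_le_ncard ?_ (cntSet_finite _ _ (by simp))
  intro v hv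
  simp only [cntSet, mem_ofPred_eq] at hv ⊢
  exact hv.trans h

private lemma ME_F_eq (R : ℝ) : F R = F (√(R ^ 2)) := by
  have h : √(R ^ 2) ^ 2 = R ^ 2 := Real.sq_sqrt (sq_nonneg R)
  exact le_antisymm (ME_F_mono h.ge) (ME_F_mono h.le)

/-- ME -/
theorem measurable_Pe : Measurable Pe := by
  have hm : Monotone fun t : ℝ => (F (√t) : ℝ) := by
    intro s t hst
    have h1 : √s ≤ √t := Real.sqrt_le_sqrt hst
    exact Nat.cast_le.2 (ME_F_mono (pow_le_pow_left₀ (Real.sqrt_nonneg s) h1 2))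
  have h1 : Measurable fun R : ℝ => (F (√(R ^ 2)) : ℝ) :=
    hm.measurable.comp (measurable_id.pow_const 2)
  have h2 : Pe = fun R : ℝ => (F (√(R ^ 2)) : ℝ) - π * R ^ 2 := by
    funext R
    rw [Pe, ME_F_eq R]
  rw [h2]
  exact h1.sub ((measurable_id.pow_const 2).const_mul π)

/-- ME' -/
theorem continuous_TK (K : ℕ) : Continuous (TK K) := by
  unfold TK ee
  fun_prop

/-- ME'' -/
theorem abs_Pe_le {R : ℝ} (hR : 1 ≤ R) : |Pe R| ≤ 20 * R ^ 2 := by
  have hR0 : 0 ≤ R := by linarith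
  have h1 : F R ≤ (2 * ⌊R⌋₊ + 1) ^ 2 := by
    have hsub : cntSet R 0 ⊆ (box ⌊R⌋₊ : Set (Fin 2 → ℤ)) := by
      intro v hv
      rw [Finset.mem_coe, mem_box]
      have hv' : (v 0 : ℝ) ^ 2 + (v 1 : ℝ) ^ 2 ≤ R ^ 2 := by
        simpa [cntSet] using hv
      have key : ∀ i, (v i : ℝ) ^ 2 ≤ R ^ 2 := by
        intro i
        fin_cases i
        · show (v 0 : ℝ) ^ 2 ≤ R ^ 2
          nlinarith [sq_nonneg (v 1 : ℝ)]
        · show (v 1 : ℝ) ^ 2 ≤ R ^ 2
          nlinarith [sq_nonneg (v 0 : ℝ)]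
      intro i
      have h2 := abs_le_of_sq_le_sq' (key i) hR0
      have h3 : (((v i).natAbs : ℕ) : ℝ) ≤ R := by
        rw [Nat.cast_natAbs, Int.cast_abs]
        exact abs_le.2 h2
      have h4 : (v i).natAbs ≤ ⌊R⌋₊ := Nat.le_floor h3
      omega
    have h2 := Set.ncard_le_ncard hsub (Finset.finite_toSet _)
    rw [Set.ncard_coe_finset] at h2
    have h3 : (box ⌊R⌋₊).card = (2 * ⌊R⌋₊ + 1) ^ 2 := by
      unfold box
      rw [Fintype.card_piFinset]
      simp only [Int.card_Icc, Finset.prod_const, Finset.card_univ, Fintype.card_fin]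
      congr 1
      omega
    rw [h3] at h2
    exact h2
  have h2 : (F R : ℝ) ≤ (2 * R + 1) ^ 2 := by
    have h3 : (F R : ℝ) ≤ (2 * (⌊R⌋₊ : ℝ) + 1) ^ 2 := by exact_mod_cast h1
    have h4 : (⌊R⌋₊ : ℝ) ≤ R := Nat.floor_le hR0
    have h5 : (0 : ℝ) ≤ ⌊R⌋₊ := Nat.cast_nonneg _
    nlinarith
  have h3 : (0 : ℝ) ≤ F R := Nat.cast_nonneg _
  have hpi : π < 4 := Real.pi_lt_four
  have hpi0 := Real.pi_pos
  rw [Pe, abs_le]
  constructor
  · nlinarith [mul_pos hpi0 (by positivity : (0 : ℝ) < R ^ 2)]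
  · nlinarith [mul_pos hpi0 (by positivity : (0 : ℝ) < R ^ 2)]

end

end Pool.Agent.Helper22.LIL
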